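import Pool.Agent.Helper79.GU.St1
import Pool.Agent.Helper79.GS.St6

/-! # Project GU, module SFN: safe players as numbers -/

set_option autoImplicit false

namespace Pool.Agent.Helper40.GU

open Pool.Agent.Helper79.GU Pool.Agent.Helper79.GT Pool.Agent.Helper79.GS Pool.Agent.Helper73.DC
open Pool.Agent.Helper19.SK Finset
open scoped Classical

private lemma pw_eq {N e : ℕ} (h : 3 ^ e ≤ N) : pw N 3 e = 3 ^ e := by
  unfold pw
  exact min_eq_left (by omega)

private lemma gd_iff (hARE : Pool.Agent.Helper79.GS.StARE) {N n : ℕ} (hN : 3 ^ (n * n) ≤ N)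
    (c : Bool) (Q : Pos (Fin n × Fin n)) :
    gdN N n (bn c) (codeB Q) ↔ ∀ d, (0 < (goG (grid n) false).sc Q d ↔ c = true) := by
  have h1 : areaN N n 1 (codeB Q) = area (grid n) Q true := hARE N n hN true Q
  have h0 : areaN N n 0 (codeB Q) = area (grid n) Q false := hARE N n hN false Q
  have hsc : ∀ d, (goG (grid n) false).sc Q d =
      (area (grid n) Q true : ℤ) - area (grid n) Q false := by
    intro d
    simp [goG]
  unfold gdN
  rw [h1, h0]
  cases c with
  | true =>
    rw [if_pos (by rfl)]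
    constructor
    · intro h d
      rw [hsc]
      exact ⟨fun _ => rfl, fun _ => by omega⟩
    · intro h
      have := (h 0).2 rfl
      rw [hsc] at this
      omega
  | false =>
    rw [if_neg (by decide)]
    constructor
    · intro h d
      rw [hsc]
      constructor
      · intro h2
        exact absurd (by omega) h
      · intro h2
        exact absurd h2 (by decide)
    · intro h h2
      have := (h 0).1 (by rw [hsc]; omega)
      exact absurd this (by decide)

private lemma saf_iff (hCOD : Pool.Agent.Helper79.GS.StCOD) (hARE : Pool.Agent.Helper79.GS.StARE)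
    (hRPT : Pool.Agent.Helper79.GU.StRPT) {N n : ℕ} (hN : 3 ^ (n * n) ≤ N) (c : Bool)
    (Q : Pos (Fin n × Fin n)) :
    safN N n (bn c) (codeB Q) ↔ Safe (goG (grid n) false) c Q := by
  obtain ⟨hc1, _, hc3, _⟩ := hCOD n
  unfold safN Safe
  rw [pw_eq hN]
  constructor
  · intro h Q' hQ'
    exact (gd_iff hARE hN c Q').1 (h (codeB Q') (hc1 Q').1 ((hRPT N n hN c Q Q').2 hQ'))
  · intro h v hv hp
    obtain ⟨Q', rfl⟩ := hc3 v hv
    exact (gd_iff hARE hN c Q').2 (h Q' ((hRPT N n hN c Q Q').1 hp))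

/-- module SFN of project GU -/
theorem hSFN (hCOD : Pool.Agent.Helper79.GS.StCOD) (hPLY : Pool.Agent.Helper79.GS.StPLY)
    (hARE : Pool.Agent.Helper79.GS.StARE) (hRPT : Pool.Agent.Helper79.GU.StRPT) :
    Pool.Agent.Helper79.GU.StSFN := by
  intro N n hN c Q
  obtain ⟨hc1, _, hc3, _⟩ := hCOD n
  refine ⟨saf_iff hCOD hARE hRPT hN c Q, ?_⟩
  unfold losN
  rw [saf_iff hCOD hARE hRPT hN c Q, pw_eq hN]
  refine or_congr Iff.rfl ?_
  constructor
  · rintro ⟨v, hv, hm, hs⟩
    obtain ⟨Q', rfl⟩ := hc3 v hv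
    exact ⟨Q', (hPLY N n hN c Q Q').1 hm, (saf_iff hCOD hARE hRPT hN c Q').1 hs⟩
  · rintro ⟨Q', hm, hs⟩
    exact ⟨codeB Q', (hc1 Q').1, (hPLY N n hN c Q Q').2 hm, (saf_iff hCOD hARE hRPT hN c Q').2 hs⟩

end Pool.Agent.Helper40.GU
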